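import Pool.Agent.KS6_3.ZL.H387R3.ZT.Stmts

/-! Project ZT, task TaskWA (helper133): weak approximation for distinct discrete valuations. -/

set_option autoImplicit false

namespace Pool.Agent.H133R3.ZT

open FF

variable {k F : Type} [Field k] [Field F] [Algebra k F]

/-- `f` vanishes to order at least `N` -/
def Ge (P : Place k F) (N : ℤ) (f : F) : Prop := f = 0 ∨ N ≤ P.ord f

lemma Ge.zero (P : Place k F) (N : ℤ) : Ge P N 0 := Or.inl rfl

lemma Ge.mono {P : Place k F} {N M : ℤ} {f : F} (h : Ge P N f) (hM : M ≤ N) : Ge P M f := by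
  rcases h with h | h
  · exact Or.inl h
  · exact Or.inr (hM.trans h)

lemma Ge.add {P : Place k F} {N : ℤ} {f g : F} (hf : Ge P N f) (hg : Ge P N g) :
    Ge P N (f + g) := by
  by_cases h1 : f = 0
  · rwa [h1, zero_add]
  by_cases h2 : g = 0
  · rwa [h2, add_zero]
  by_cases h3 : f + g = 0
  · exact Or.inl h3
  · have e1 : N ≤ P.ord f := hf.resolve_left h1
    have e2 : N ≤ P.ord g := hg.resolve_left h2
    exact Or.inr ((le_min e1 e2).trans (P.ord_add h1 h2 h3))

lemma Ge.mul {P : Place k F} {N M : ℤ} {f g : F} (hf : Ge P N f) (hg : Ge P M g) :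
    Ge P (N + M) (f * g) := by
  by_cases h1 : f = 0
  · left; simp [h1]
  by_cases h2 : g = 0
  · left; simp [h2]
  right
  have e1 : N ≤ P.ord f := hf.resolve_left h1
  have e2 : M ≤ P.ord g := hg.resolve_left h2
  rw [P.ord_mul h1 h2]
  omega

lemma Ge.sum {ι : Type} {P : Place k F} {N : ℤ} (s : Finset ι) (f : ι → F)
    (h : ∀ i ∈ s, Ge P N (f i)) : Ge P N (∑ i ∈ s, f i) := by
  classical
  induction s using Finset.induction_on with
  | empty => simpa using Ge.zero P N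
  | insert a s ha ih =>
    rw [Finset.sum_insert ha]
    exact (h a (Finset.mem_insert_self a s)).add
      (ih fun i hi => h i (Finset.mem_insert_of_mem hi))

/-- inclusion of valuation rings implies equality -/
lemma eq_of_le {P Q : Place k F} (h : ∀ f : F, f ≠ 0 → 0 ≤ P.ord f → 0 ≤ Q.ord f) : P = Q := by
  obtain ⟨t, ht, ht1⟩ := P.surj
  obtain ⟨u, hu, hu1⟩ := Q.surj
  have h0 : ∀ f : F, f ≠ 0 → P.ord f = 0 → Q.ord f = 0 := by
    intro f hf hf0
    have h1 := h f hf (by rw [hf0])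
    have h2 := h f⁻¹ (inv_ne_zero hf) (by rw [P.ord_inv, hf0, neg_zero])
    rw [Q.ord_inv] at h2
    omega
  have h1 : ∀ f : F, f ≠ 0 → Q.ord f = P.ord f * Q.ord t := by
    intro f hf
    have h2 : P.ord (f / t ^ P.ord f) = 0 := by
      rw [P.ord_div hf (zpow_ne_zero _ ht), P.ord_zpow, ht1]
      ring
    have h3 := h0 _ (div_ne_zero hf (zpow_ne_zero _ ht)) h2
    rw [Q.ord_div hf (zpow_ne_zero _ ht), Q.ord_zpow] at h3
    omega
  have h2 : Q.ord t = 1 := by
    have h3 := h1 u hu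
    rw [hu1] at h3
    have h4 : 0 ≤ Q.ord t := h t ht (by rw [ht1]; norm_num)
    have h5 : IsUnit (Q.ord t) := IsUnit.of_mul_eq_one (P.ord u) (by rw [h3]; ring)
    rcases Int.isUnit_iff.1 h5 with h6 | h6
    · exact h6
    · omega
  ext f
  by_cases hf : f = 0
  · rw [hf, P.ord_zero, Q.ord_zero]
  · rw [h1 f hf, h2, mul_one]

lemma two {P Q : Place k F} (hPQ : P ≠ Q) : ∃ f : F, f ≠ 0 ∧ 0 < P.ord f ∧ Q.ord f < 0 := by
  have h1 : ∃ u : F, u ≠ 0 ∧ 0 ≤ P.ord u ∧ Q.ord u < 0 := by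
    by_contra hcon
    push Not at hcon
    exact hPQ (eq_of_le hcon)
  have h2 : ∃ v : F, v ≠ 0 ∧ 0 ≤ Q.ord v ∧ P.ord v < 0 := by
    by_contra hcon
    push Not at hcon
    exact hPQ (eq_of_le hcon).symm
  obtain ⟨u, hu, hu1, hu2⟩ := h1
  obtain ⟨v, hv, hv1, hv2⟩ := h2
  refine ⟨u / v, div_ne_zero hu hv, ?_, ?_⟩
  · rw [P.ord_div hu hv]; omega
  · rw [Q.ord_div hu hv]; omega

lemma ord_add_ne (P : Place k F) {f g : F} (hf : f ≠ 0) (hg : g ≠ 0) (h : P.ord f ≠ P.ord g) :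
    f + g ≠ 0 ∧ P.ord (f + g) = min (P.ord f) (P.ord g) := by
  rcases lt_or_gt_of_ne h with h1 | h1
  · obtain ⟨h2, h3⟩ := P.ord_add_eq hf hg h1
    exact ⟨h2, by rw [h3, min_eq_left h1.le]⟩
  · obtain ⟨h2, h3⟩ := P.ord_add_eq hg hf h1
    rw [add_comm] at h2 h3
    exact ⟨h2, by rw [h3, min_eq_right h1.le]⟩

lemma sep (P : Place k F) (T : Finset (Place k F)) (hP : P ∉ T) :
    ∃ f : F, f ≠ 0 ∧ 0 < P.ord f ∧ ∀ Q ∈ T, Q.ord f < 0 := by
  classical
  induction T using Finset.induction_on with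
  | empty =>
    obtain ⟨t, ht, ht1⟩ := P.surj
    exact ⟨t, ht, by rw [ht1]; norm_num, by simp⟩
  | insert Q T hQ ih =>
    rw [Finset.mem_insert, not_or] at hP
    obtain ⟨f, hf, hf1, hf2⟩ := ih hP.2
    obtain ⟨z, hz, hz1, hz2⟩ := two hP.1
    by_cases hQf : Q.ord f < 0
    · refine ⟨f, hf, hf1, fun R hR => ?_⟩
      rcases Finset.mem_insert.1 hR with rfl | hR
      · exact hQf
      · exact hf2 R hR
    · push Not at hQf
      -- a large exponent
      set r : ℕ := 1 + ∑ R ∈ T, (R.ord f).natAbs with hr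
      have hzr : z ^ r ≠ 0 := pow_ne_zero _ hz
      have hr1 : (1 : ℤ) ≤ r := by rw [hr]; push_cast; have : (0:ℤ) ≤ ∑ R ∈ T, |R.ord f| := Finset.sum_nonneg (fun _ _ => abs_nonneg _); linarith
      have hQr : Q.ord (z ^ r) < 0 := by
        rw [Q.ord_pow]
        exact mul_neg_of_pos_of_neg (by omega) hz2
      obtain ⟨hy, hyQ⟩ := ord_add_ne Q hf hzr (by omega)
      refine ⟨f + z ^ r, hy, ?_, fun R hR => ?_⟩
      · have h1 := P.ord_add hf hzr hy
        have h2 : 0 < P.ord (z ^ r) := by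
          rw [P.ord_pow]
          exact mul_pos (by omega) hz1
        exact lt_of_lt_of_le (lt_min hf1 h2) h1
      · rcases Finset.mem_insert.1 hR with rfl | hR
        · rw [hyQ]
          exact lt_of_le_of_lt (min_le_right _ _) hQr
        · have h1 := hf2 R hR
          have h2 : (R.ord f).natAbs ≤ ∑ R ∈ T, (R.ord f).natAbs :=
            Finset.single_le_sum (f := fun R : Place k F => (R.ord f).natAbs)
              (fun _ _ => Nat.zero_le _) hR
          have h3 : R.ord f ≠ R.ord (z ^ r) := by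
            rw [R.ord_pow]
            intro h4
            have h5 : (r : ℤ) ∣ R.ord f := ⟨_, h4⟩
            have h6 := Int.le_of_dvd (b := -R.ord f) (by omega) ((dvd_neg).2 h5)
            omega
          obtain ⟨_, h4⟩ := ord_add_ne R hf hzr h3
          rw [h4]
          exact lt_of_le_of_lt (min_le_left _ _) h1

lemma approx_one (P : Place k F) (T : Finset (Place k F)) (hP : P ∉ T) (m : ℕ) :
    ∃ w : F, Ge P m (w - 1) ∧ ∀ Q ∈ T, Ge Q m w := by
  obtain ⟨f, hf, hf1, hf2⟩ := sep P T hP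
  have hfm : f ^ (m + 1) ≠ 0 := pow_ne_zero _ hf
  have h1 : P.ord 1 < P.ord (f ^ (m + 1)) := by
    rw [P.ord_one, P.ord_pow]
    exact mul_pos (by positivity) hf1
  obtain ⟨h2, h3⟩ := P.ord_add_eq one_ne_zero hfm h1
  refine ⟨(1 + f ^ (m + 1))⁻¹, Or.inr ?_, fun Q hQ => Or.inr ?_⟩
  · have h4 : (1 + f ^ (m + 1))⁻¹ - 1 = -(f ^ (m + 1) * (1 + f ^ (m + 1))⁻¹) := by
      field_simp
      ring
    rw [h4, P.ord_neg, P.ord_mul hfm (inv_ne_zero h2), P.ord_inv, h3, P.ord_one, P.ord_pow]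
    push_cast
    nlinarith
  · have h5 := hf2 Q hQ
    have h6 : Q.ord (f ^ (m + 1)) < Q.ord 1 := by
      rw [Q.ord_one, Q.ord_pow]
      exact mul_neg_of_pos_of_neg (by positivity) h5
    obtain ⟨_, h7⟩ := Q.ord_add_eq hfm one_ne_zero h6
    rw [Q.ord_inv, add_comm, h7, Q.ord_pow]
    push_cast
    nlinarith

/-- Weak approximation. -/
theorem taskWA : Pool.Agent.H387R3.ZT.TaskWA := by
  classical
  intro k F _ _ _ T a N
  set m : ℕ := ∑ x ∈ T, ∑ y ∈ T, (N - y.ord (a x)).toNat with hm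
  have hm1 : ∀ x ∈ T, ∀ y ∈ T, N - y.ord (a x) ≤ m := by
    intro x hx y hy
    have h1 : (N - y.ord (a x)).toNat ≤ ∑ y ∈ T, (N - y.ord (a x)).toNat :=
      Finset.single_le_sum (f := fun y : Place k F => (N - y.ord (a x)).toNat)
        (fun _ _ => Nat.zero_le _) hy
    have h2 : ∑ y ∈ T, (N - y.ord (a x)).toNat ≤ m :=
      Finset.single_le_sum (f := fun x : Place k F => ∑ y ∈ T, (N - y.ord (a x)).toNat)
        (fun _ _ => Nat.zero_le _) hx
    omega
  choose w hw1 hw2 using fun x : Place k F => approx_one x (T.erase x) (by simp) m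
  have key : ∀ x ∈ T, ∀ y ∈ T, ∀ g : F, Ge y m g → Ge y N (a x * g) := by
    intro x hx y hy g hg
    by_cases h0 : a x = 0
    · rw [h0, zero_mul]; exact Ge.zero y N
    · have h1 : Ge y (y.ord (a x)) (a x) := Or.inr le_rfl
      refine (h1.mul hg).mono ?_
      have := hm1 x hx y hy
      omega
  refine ⟨∑ x ∈ T, a x * w x, fun y hy => ?_⟩
  have h1 : (∑ x ∈ T, a x * w x) - a y = a y * (w y - 1) + ∑ x ∈ T.erase y, a x * w x := by
    rw [← Finset.add_sum_erase T _ hy]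
    ring
  have h2 : Ge y N ((∑ x ∈ T, a x * w x) - a y) := by
    rw [h1]
    refine (key y hy y hy _ (hw1 y)).add (Ge.sum _ _ fun x hx => ?_)
    have hx' := Finset.mem_erase.1 hx
    refine key x hx'.2 y hy _ (hw2 x y ?_)
    exact Finset.mem_erase.2 ⟨fun h => hx'.1 h.symm, hy⟩
  rcases h2 with h2 | h2
  · left
    exact sub_eq_zero.1 h2
  · right
    exact h2

end Pool.Agent.H133R3.ZT
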